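import Pool.Agent.H57.SC.Targets

/-!
# MP_eb32d7_co, module FS: the theorem of Fleischner and Stiebitz for linear forests
-/

set_option autoImplicit false

namespace Pool.Agent.H91.SC

open Finset Pool.Agent.H57.SC

theorem pf_fs (orr : T_OR) (alg : T_ALG) (lo : T_LO) : T_FS := by
  intro W I _ _ _ _ F _ t h3 hdeg hX
  classical
  obtain ⟨e, he⟩ := lo W F hdeg hX
  rcases isEmpty_or_nonempty W with hW | hW
  · exact ⟨fun _ => 0, fun u => (hW.false u).elim, fun u => (hW.false u).elim⟩
  have hpos : 0 < Fintype.card W := Fintype.card_pos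
  -- enumeration of the fibres
  have hcard : ∀ i, Fintype.card {w // t w = i} = 3 := by
    intro i
    rw [Fintype.card_subtype]
    exact h3 i
  let E : ∀ i, {w // t w = i} ≃ Fin 3 := fun i => Fintype.equivFinOfCardEq (hcard i)
  let g : I × Fin 3 ≃ W :=
    { toFun := fun x => ((E x.1).symm x.2).1
      invFun := fun w => (t w, E (t w) ⟨w, rfl⟩)
      left_inv := by
        rintro ⟨i, j⟩
        have hi : t ((E i).symm j).1 = i := ((E i).symm j).2
        have key : ∀ (i' : I) (w : W) (h : t w = i'), ((t w, E (t w) ⟨w, rfl⟩) : I × Fin 3) =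
            (i', E i' ⟨w, h⟩) := by
          intro i' w h
          subst h
          rfl
        change ((t ((E i).symm j).1, E (t ((E i).symm j).1) ⟨((E i).symm j).1, rfl⟩) :
          I × Fin 3) = (i, j)
        rw [key i _ hi]
        simp
      right_inv := by
        intro w
        simp }
  have hg : ∀ w, (g.symm w).1 = t w := fun w => rfl
  let pos : I × Fin 3 → ℕ := fun x => (e (g x) : ℕ)
  have hposs : ∀ w, pos (g.symm w) = (e w : ℕ) := by
    intro w
    change ((e (g (g.symm w))) : ℕ) = e w
    rw [Equiv.apply_symm_apply]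
  have hinj : Function.Injective pos := by
    intro x y hxy
    exact g.injective (e.injective (Fin.ext hxy))
  have hsur : ∀ p, p ≤ Fintype.card W - 1 ↔ ∃ x, pos x = p := by
    intro p
    constructor
    · intro hp
      have hp' : p < Fintype.card W := by omega
      refine ⟨g.symm (e.symm ⟨p, hp'⟩), ?_⟩
      rw [hposs, Equiv.apply_symm_apply]
    · rintro ⟨x, hx⟩
      have := (e (g x)).2
      change ((e (g x)) : ℕ) = p at hx
      omega
  obtain ⟨c0, hc0, hc1⟩ := alg I (Fintype.card W - 1) pos hinj hsur
    (orr I (Fintype.card W - 1) pos hinj hsur)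
  refine ⟨fun w => c0 (g.symm w), ?_, ?_⟩
  · intro u v huv
    rcases he u v huv with h | h
    · exact (hc1 (g.symm v) (g.symm u) (by rw [hposs, hposs]; exact h)).symm
    · exact hc1 (g.symm u) (g.symm v) (by rw [hposs, hposs]; exact h)
  · intro u v ht hc
    apply g.symm.injective
    have h1 : (g.symm u).1 = (g.symm v).1 := by rw [hg, hg, ht]
    have h2 : (g.symm u).2 = (g.symm v).2 := by
      apply hc0 (g.symm u).1
      change c0 ((g.symm u).1, (g.symm u).2) = c0 ((g.symm u).1, (g.symm v).2)
      have e1 : ((g.symm u).1, (g.symm u).2) = g.symm u := rfl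
      have e2 : ((g.symm u).1, (g.symm v).2) = g.symm v := by rw [h1]
      rw [e1, e2]
      exact hc
    exact Prod.ext h1 h2

end Pool.Agent.H91.SC
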