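import Pool.Agent.H57.SC.Targets

/-!
# MP_eb32d7_co, module OR: the number of good orientations of the path is odd
-/

set_option autoImplicit false

namespace Pool.Agent.H91.SC.OR

open Finset Pool.Agent.H57.SC

section

variable {B : Type} [Fintype B] [DecidableEq B] (pos : B × Fin 3 → ℕ) (χ : B → Fin 3)

/-- the number of turning points at positions less than `p` -/
def cT (p : ℕ) : ℕ := (univ.filter (fun x : B × Fin 3 => x.2 ≠ χ x.1 ∧ pos x < p)).card

/-- the orientation attached to `χ` -/
def oT (k : ℕ) : Fin k → Bool := fun i => decide (Even (cT pos χ ((i : ℕ) + 1)))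

omit [DecidableEq B] in
theorem cT_zero : cT pos χ 0 = 0 := by
  unfold cT
  rw [card_eq_zero, filter_eq_empty_iff]
  intro x _ h
  exact Nat.not_lt_zero _ h.2

omit [DecidableEq B] in
theorem cT_through (hinj : Function.Injective pos) {x : B × Fin 3} (hx : x.2 = χ x.1) :
    cT pos χ (pos x + 1) = cT pos χ (pos x) := by
  unfold cT
  congr 1
  ext y
  simp only [mem_filter, mem_univ, true_and]
  constructor
  · rintro ⟨h1, h2⟩
    refine ⟨h1, ?_⟩
    have : pos y ≠ pos x := by
      intro h
      rw [hinj h] at h1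
      exact h1 hx
    omega
  · rintro ⟨h1, h2⟩
    exact ⟨h1, by omega⟩

theorem cT_turn (hinj : Function.Injective pos) {x : B × Fin 3} (hx : x.2 ≠ χ x.1) :
    cT pos χ (pos x + 1) = cT pos χ (pos x) + 1 := by
  unfold cT
  have h : univ.filter (fun y : B × Fin 3 => y.2 ≠ χ y.1 ∧ pos y < pos x + 1) =
      insert x (univ.filter (fun y : B × Fin 3 => y.2 ≠ χ y.1 ∧ pos y < pos x)) := by
    ext y
    simp only [mem_filter, mem_univ, true_and, mem_insert]
    constructor
    · rintro ⟨h1, h2⟩
      by_cases h : pos y = pos x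
      · exact Or.inl (hinj h)
      · exact Or.inr ⟨h1, by omega⟩
    · rintro (rfl | ⟨h1, h2⟩)
      · exact ⟨hx, by omega⟩
      · exact ⟨h1, by omega⟩
  rw [h, card_insert_of_notMem]
  intro hm
  rw [mem_filter] at hm
  omega

omit [DecidableEq B] in
theorem cT_total {k : ℕ} (hk : ∀ x, pos x ≤ k) : Even (cT pos χ (k + 1)) := by
  unfold cT
  have h : univ.filter (fun y : B × Fin 3 => y.2 ≠ χ y.1 ∧ pos y < k + 1) =
      univ.filter (fun y : B × Fin 3 => y.2 ≠ χ y.1) := by
    ext y
    simp only [mem_filter, mem_univ, true_and]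
    exact ⟨fun h => h.1, fun h => ⟨h, by have := hk y; omega⟩⟩
  rw [h, card_filter, Fintype.sum_prod_type]
  have h2 : ∀ s : Fin 3, ∑ j : Fin 3, (if j ≠ s then 1 else 0) = 2 := by decide
  have h3 : ∀ b : B, ∑ j : Fin 3, (if ((b, j) : B × Fin 3).2 ≠ χ ((b, j) : B × Fin 3).1
      then 1 else 0) = 2 := fun b => h2 (χ b)
  rw [sum_congr rfl fun b _ => h3 b, sum_const, smul_eq_mul]
  exact ⟨_, (mul_two _)⟩

theorem hh_eq (k : ℕ) (o : ℕ → Bool) (p : ℕ) :
    hh k o p = (if (p = 0 ∨ o (p - 1) = true) then 1 else 0) +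
      (if (p < k ∧ o p = false) then 1 else 0) := by
  have e1 : (if p = 0 then 1 else if o (p - 1) = true then 1 else 0) =
      (if (p = 0 ∨ o (p - 1) = true) then 1 else 0) := by
    by_cases h1 : p = 0
    · rw [if_pos h1, if_pos (Or.inl h1)]
    · rw [if_neg h1]
      by_cases h2 : o (p - 1) = true
      · rw [if_pos h2, if_pos (Or.inr h2)]
      · rw [if_neg h2, if_neg (not_or.2 ⟨h1, h2⟩)]
  have e2 : (if p < k then (if o p = false then 1 else 0) else 0) =
      (if (p < k ∧ o p = false) then 1 else 0) := by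
    by_cases h1 : p < k
    · rw [if_pos h1]
      by_cases h2 : o p = false
      · rw [if_pos h2, if_pos ⟨h1, h2⟩]
      · rw [if_neg h2, if_neg (fun h => h2 h.2)]
    · rw [if_neg h1, if_neg (fun h => h1 h.1)]
  unfold hh
  rw [e1, e2]

theorem hh_le (k : ℕ) (o : ℕ → Bool) (p : ℕ) : hh k o p ≤ 2 := by
  rw [hh_eq]
  split_ifs <;> omega

theorem ext_oT {k i : ℕ} (hi : i < k) :
    (ext k (oT pos χ k) i = true ↔ Even (cT pos χ (i + 1))) := by
  unfold Pool.Agent.H57.SC.ext oT
  rw [dif_pos hi]
  simp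

theorem hh_oT {k : ℕ} (hk : ∀ x, pos x ≤ k) {p : ℕ} (hp : p ≤ k) :
    hh k (ext k (oT pos χ k)) p = (if Even (cT pos χ p) then 1 else 0) +
      (if Even (cT pos χ (p + 1)) then 0 else 1) := by
  rw [hh_eq]
  congr 1
  · have : (p = 0 ∨ ext k (oT pos χ k) (p - 1) = true) ↔ Even (cT pos χ p) := by
      rcases Nat.eq_zero_or_pos p with h | h
      · subst h
        rw [cT_zero]
        simp
      · rw [ext_oT pos χ (by omega : p - 1 < k), Nat.sub_add_cancel h]
        constructor
        · rintro (h1 | h1)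
          · omega
          · exact h1
        · exact Or.inr
    simp only [this]
  · rcases hp.lt_or_eq with h | h
    · have h1 := ext_oT pos χ h
      by_cases h2 : Even (cT pos χ (p + 1))
      · rw [if_pos h2, if_neg]
        rintro ⟨_, h3⟩
        rw [h1.2 h2] at h3
        exact Bool.noConfusion h3
      · rw [if_neg h2, if_pos]
        refine ⟨h, ?_⟩
        rw [← Bool.not_eq_true]
        exact fun h3 => h2 (h1.1 h3)
    · subst h
      rw [if_pos (cT_total pos χ hk), if_neg]
      exact fun h => lt_irrefl _ h.1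

theorem hh_through (hinj : Function.Injective pos) {k : ℕ} (hk : ∀ x, pos x ≤ k)
    {x : B × Fin 3} (hx : x.2 = χ x.1) : hh k (ext k (oT pos χ k)) (pos x) = 1 := by
  rw [hh_oT pos χ hk (hk x), cT_through pos χ hinj hx]
  split_ifs <;> rfl

theorem hh_turn (hinj : Function.Injective pos) {k : ℕ} (hk : ∀ x, pos x ≤ k)
    {x : B × Fin 3} (hx : x.2 ≠ χ x.1) : hh k (ext k (oT pos χ k)) (pos x) =
      if Even (cT pos χ (pos x)) then 2 else 0 := by
  rw [hh_oT pos χ hk (hk x), cT_turn pos χ hinj hx]
  by_cases h : Even (cT pos χ (pos x))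
  · have h' : ¬ Even (cT pos χ (pos x) + 1) := by
      rw [Nat.even_add_one]
      exact fun hn => hn h
    rw [if_pos h, if_neg h', if_pos h]
  · have h' : Even (cT pos χ (pos x) + 1) := by
      rw [Nat.even_add_one]
      exact h
    rw [if_neg h, if_pos h', if_neg h]

theorem hh_iff (hinj : Function.Injective pos) {k : ℕ} (hk : ∀ x, pos x ≤ k)
    (x : B × Fin 3) : hh k (ext k (oT pos χ k)) (pos x) = 1 ↔ x.2 = χ x.1 := by
  constructor
  · intro h
    by_contra hx
    rw [hh_turn pos χ hinj hk hx] at h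
    split_ifs at h <;> omega
  · exact hh_through pos χ hinj hk

theorem between (hinj : Function.Injective pos) (b : B) (j j' : Fin 3) (hj : j ≠ χ b)
    (hj' : j' ≠ χ b) (hlt : pos (b, j) < pos (b, j')) :
    cT pos χ (pos (b, j')) = cT pos χ (pos (b, j)) + 1 + Nat.card {x : B × Fin 3 //
      x.1 ≠ b ∧ x.2 ≠ χ x.1 ∧ Btw pos b (χ b) (pos x)} := by
  classical
  have hjj : j ≠ j' := by
    rintro rfl
    exact lt_irrefl _ hlt
  have hcase : ∀ a s u v : Fin 3, a ≠ s → u ≠ s → v ≠ s → u ≠ v → a = u ∨ a = v := by decide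
  rw [← cT_turn pos χ hinj (x := (b, j)) hj, Nat.card_eq_fintype_card, Fintype.card_subtype]
  unfold cT
  rw [← card_union_of_disjoint]
  · congr 1
    ext x
    simp only [mem_filter, mem_univ, true_and, mem_union]
    constructor
    · rintro ⟨h1, h2⟩
      by_cases h3 : pos x < pos (b, j) + 1
      · exact Or.inl ⟨h1, h3⟩
      · refine Or.inr ⟨?_, h1, j, j', hj, hj', by omega, h2⟩
        intro hb
        obtain ⟨b', a⟩ := x
        change b' = b at hb
        subst hb
        rcases hcase a (χ b') j j' h1 hj hj' hjj with rfl | rfl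
        · omega
        · omega
    · rintro (⟨h1, h2⟩ | ⟨h1, h2, u, v, hu, hv, h3, h4⟩)
      · exact ⟨h1, by omega⟩
      · refine ⟨h2, ?_⟩
        rcases hcase v (χ b) j j' hv hj hj' hjj with rfl | rfl
        · omega
        · exact h4
  · rw [disjoint_left]
    intro x hx hx'
    rw [mem_filter] at hx hx'
    obtain ⟨_, h1, h2⟩ := hx
    obtain ⟨_, h3, h4, u, v, hu, hv, h5, h6⟩ := hx'
    rcases hcase u (χ b) j j' hu hj hj' hjj with rfl | rfl
    · omega
    · omega

theorem good_iff (hinj : Function.Injective pos) {k : ℕ} (hk : ∀ x, pos x ≤ k) :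
    (∀ b, Even (Nat.card {x : B × Fin 3 // x.1 ≠ b ∧ x.2 ≠ χ x.1 ∧
      Btw pos b (χ b) (pos x)})) ↔ Good k pos (oT pos χ k) := by
  unfold Good
  refine forall_congr' fun b => ?_
  have hex : ∀ s : Fin 3, ∃ j j' : Fin 3, j ≠ s ∧ j' ≠ s ∧ j ≠ j' := by decide
  have hex2 : ∃ j j' : Fin 3, j ≠ χ b ∧ j' ≠ χ b ∧ pos (b, j) < pos (b, j') := by
    obtain ⟨j, j', h1, h2, h3⟩ := hex (χ b)
    have h4 : pos (b, j) ≠ pos (b, j') := by
      intro h
      have := hinj h
      rw [Prod.mk.injEq] at this
      exact h3 this.2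
    rcases lt_or_gt_of_ne h4 with h | h
    · exact ⟨j, j', h1, h2, h⟩
    · exact ⟨j', j, h2, h1, h⟩
  obtain ⟨j, j', hj, hj', hlt⟩ := hex2
  have hjj : j ≠ j' := by
    rintro rfl
    exact lt_irrefl _ hlt
  have hb := between pos χ hinj b j j' hj hj' hlt
  have v1 : hh k (ext k (oT pos χ k)) (pos (b, χ b)) = 1 :=
    hh_through pos χ hinj hk (x := (b, χ b)) rfl
  have v2 := hh_turn pos χ hinj hk (x := (b, j)) hj
  have v3 := hh_turn pos χ hinj hk (x := (b, j')) hj'
  have hcase : ∀ a s u v : Fin 3, u ≠ s → v ≠ s → u ≠ v → a = s ∨ a = u ∨ a = v := by decide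
  constructor
  · intro he
    have hpar : Even (cT pos χ (pos (b, j'))) ↔ ¬ Even (cT pos χ (pos (b, j))) := by
      rw [hb, Nat.even_add, Nat.even_add_one]
      simp [he]
    have hne : hh k (ext k (oT pos χ k)) (pos (b, j)) ≠
        hh k (ext k (oT pos χ k)) (pos (b, j')) := by
      rw [v2, v3]
      by_cases h : Even (cT pos χ (pos (b, j)))
      · rw [if_pos h, if_neg (fun h' => hpar.1 h' h)]
        omega
      · rw [if_neg h, if_pos (hpar.2 h)]
        omega
    have n2 : hh k (ext k (oT pos χ k)) (pos (b, j)) ≠ 1 := by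
      rw [v2]; split_ifs <;> omega
    have n3 : hh k (ext k (oT pos χ k)) (pos (b, j')) ≠ 1 := by
      rw [v3]; split_ifs <;> omega
    intro a a' haa
    change hh k (ext k (oT pos χ k)) (pos (b, a)) = hh k (ext k (oT pos χ k)) (pos (b, a')) at haa
    rcases hcase a (χ b) j j' hj hj' hjj with h | h | h <;>
      rcases hcase a' (χ b) j j' hj hj' hjj with h' | h' | h' <;> rw [h, h'] <;>
      rw [h, h'] at haa
    · exact absurd (haa.symm.trans v1) n2
    · exact absurd (haa.symm.trans v1) n3
    · exact absurd (haa.trans v1) n2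
    · exact absurd haa hne
    · exact absurd (haa.trans v1) n3
    · exact absurd haa.symm hne
  · intro hI
    have hne : hh k (ext k (oT pos χ k)) (pos (b, j)) ≠
        hh k (ext k (oT pos χ k)) (pos (b, j')) := fun h => hjj (hI h)
    rw [v2, v3, hb] at hne
    by_contra ho
    apply hne
    have : Even (cT pos χ (pos (b, j)) + 1 + Nat.card {x : B × Fin 3 //
        x.1 ≠ b ∧ x.2 ≠ χ x.1 ∧ Btw pos b (χ b) (pos x)}) ↔
        Even (cT pos χ (pos (b, j))) := by
      rw [Nat.even_add, Nat.even_add_one]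
      simp [ho]
    simp only [this]

end

theorem exists_chi {B : Type} [Fintype B] [DecidableEq B] (k : ℕ) (pos : B × Fin 3 → ℕ)
    (hinj : Function.Injective pos) (hsur : ∀ p, p ≤ k ↔ ∃ x, pos x = p) (o : Fin k → Bool)
    (ho : Good k pos o) : ∃ χ : B → Fin 3, oT pos χ k = o := by
  have h1 : ∀ b, ∃ j, hh k (ext k o) (pos (b, j)) = 1 := by
    intro b
    by_contra hc
    push Not at hc
    have hI := ho b
    have e01 : hh k (ext k o) (pos (b, 0)) ≠ hh k (ext k o) (pos (b, 1)) :=
      fun h => absurd (hI h) (by decide)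
    have e02 : hh k (ext k o) (pos (b, 0)) ≠ hh k (ext k o) (pos (b, 2)) :=
      fun h => absurd (hI h) (by decide)
    have e12 : hh k (ext k o) (pos (b, 1)) ≠ hh k (ext k o) (pos (b, 2)) :=
      fun h => absurd (hI h) (by decide)
    have l0 := hh_le k (ext k o) (pos (b, 0))
    have l1 := hh_le k (ext k o) (pos (b, 1))
    have l2 := hh_le k (ext k o) (pos (b, 2))
    have m0 := hc 0
    have m1 := hc 1
    have m2 := hc 2
    omega
  choose χ hχ using h1
  have hiff : ∀ x : B × Fin 3, hh k (ext k o) (pos x) = 1 ↔ x.2 = χ x.1 := by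
    rintro ⟨b, j⟩
    constructor
    · intro h
      exact ho b (h.trans (hχ b).symm)
    · intro h
      change j = χ b at h
      rw [h]
      exact hχ b
  have hL : ∀ p, p ≤ k → ((p = 0 ∨ ext k o (p - 1) = true) ↔ Even (cT pos χ p)) := by
    intro p
    induction p with
    | zero =>
      intro _
      rw [cT_zero]
      simp
    | succ p ih =>
      intro hp
      have ih' := ih (by omega)
      obtain ⟨x, hx⟩ := (hsur p).1 (by omega)
      have hv := hh_eq k (ext k o) p
      have hpk : p < k := by omega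
      have e1 : p + 1 - 1 = p := by omega
      rw [e1]
      have e2 : (p + 1 = 0 ∨ ext k o p = true) ↔ ext k o p = true := by
        constructor
        · rintro (h | h)
          · omega
          · exact h
        · exact Or.inr
      rw [e2]
      by_cases ht : x.2 = χ x.1
      · have h3 := (hiff x).2 ht
        rw [hx, hv] at h3
        have h4 := cT_through pos χ hinj ht
        rw [hx] at h4
        rw [h4, ← ih']
        by_cases h5 : (p = 0 ∨ ext k o (p - 1) = true)
        · rw [if_pos h5] at h3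
          refine ⟨fun _ => h5, fun _ => ?_⟩
          by_contra h6
          rw [Bool.not_eq_true] at h6
          rw [if_pos ⟨hpk, h6⟩] at h3
          omega
        · rw [if_neg h5] at h3
          refine ⟨fun h6 => ?_, fun h6 => absurd h6 h5⟩
          rw [if_neg (fun h7 => by rw [h6] at h7; exact Bool.noConfusion h7.2)] at h3
          omega
      · have h3 : hh k (ext k o) p ≠ 1 := by
          rw [← hx]
          exact fun h => ht ((hiff x).1 h)
        rw [hv] at h3
        have h4 := cT_turn pos χ hinj ht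
        rw [hx] at h4
        rw [h4, Nat.even_add_one, ← ih']
        by_cases h5 : (p = 0 ∨ ext k o (p - 1) = true)
        · rw [if_pos h5] at h3
          refine ⟨fun h6 => ?_, fun h6 => absurd h5 h6⟩
          rw [if_neg (fun h7 => by rw [h6] at h7; exact Bool.noConfusion h7.2)] at h3
          omega
        · rw [if_neg h5] at h3
          refine ⟨fun _ => h5, fun _ => ?_⟩
          by_contra h6
          rw [Bool.not_eq_true] at h6
          rw [if_pos ⟨hpk, h6⟩] at h3
          omega
  refine ⟨χ, ?_⟩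
  funext i
  have h3 := hL ((i : ℕ) + 1) (by have := i.2; omega)
  have e1 : (i : ℕ) + 1 - 1 = i := by omega
  rw [e1] at h3
  have e2 : ext k o (i : ℕ) = o i := by
    unfold Pool.Agent.H57.SC.ext
    rw [dif_pos i.2]
  rw [e2] at h3
  unfold oT
  by_cases h4 : o i = true
  · rw [h4, decide_eq_true_iff]
    exact h3.1 (Or.inr h4)
  · have h5 : ¬ Even (cT pos χ ((i : ℕ) + 1)) := by
      intro h6
      rcases h3.2 h6 with h7 | h7
      · omega
      · exact h4 h7
    rw [Bool.not_eq_true] at h4
    rw [h4, decide_eq_false_iff_not]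
    exact h5

theorem pf_or (ch : T_CH) : T_OR := by
  intro B _ _ k pos hinj hsur
  have hk : ∀ x, pos x ≤ k := fun x => (hsur _).2 ⟨x, rfl⟩
  have h := ch B pos hinj
  have hcard : Nat.card {χ : B → Fin 3 // ∀ b, Even (Nat.card {x : B × Fin 3 // x.1 ≠ b ∧
      x.2 ≠ χ x.1 ∧ Btw pos b (χ b) (pos x)})} =
      Nat.card {o : Fin k → Bool // Good k pos o} := by
    refine Nat.card_congr (Equiv.ofBijective
      (fun χ => ⟨oT pos χ.1 k, (good_iff pos χ.1 hinj hk).1 χ.2⟩) ⟨?_, ?_⟩)
    · rintro ⟨χ, h1⟩ ⟨χ', h2⟩ he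
      have he' : oT pos χ k = oT pos χ' k := congrArg Subtype.val he
      apply Subtype.ext
      funext b
      have h3 := hh_through pos χ hinj hk (x := (b, χ b)) rfl
      rw [he', hh_iff pos χ' hinj hk] at h3
      exact h3
    · rintro ⟨o, ho⟩
      obtain ⟨χ, hχ⟩ := exists_chi k pos hinj hsur o ho
      refine ⟨⟨χ, (good_iff pos χ hinj hk).2 (by rw [hχ]; exact ho)⟩, Subtype.ext hχ⟩
  rw [← hcard]
  exact h

end Pool.Agent.H91.SC.OR
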