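import Pool.Agent.H57.SC.Targets

/-!
# MP_eb32d7_co, module UL: usable vertices are allowed and close to the centre
-/

set_option autoImplicit false

namespace Pool.Agent.H91.SC

open Finset Pool.Agent.H57.SC

theorem pf_ul : T_UL := by
  intro W C B _ _ _ _ _ _ cyc blk adj hS Q f _
  refine ⟨?_, ?_, ?_⟩
  · intro w hw
    refine ⟨rfl, ?_, ?_⟩
    · intro p hp
      exact hw.1.1 p (Or.inl hp)
    · intro p q hp hq hpq
      exact hw.1.2 p q (Or.inl hp) (Or.inl hq) hpq
  · intro w w' hw hw' hne hcyc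
    have h1 := hw.2.1 w (Or.inr rfl)
    have h2 := hw'.2.1 w' (Or.inr rfl)
    rw [← hcyc] at h2
    rcases h1 with h1 | h1
    · rcases h2 with h2 | h2
      · exact absurd (h1.symm.trans h2) hne
      · rw [h1] at h2
        exact hS.dist w w' hne (Or.inl h2)
    · rcases h2 with h2 | h2
      · rw [h2] at h1
        exact hS.dist w w' hne (Or.inl (hS.symm _ _ h1))
      · exact hS.dist w w' hne (Or.inr ⟨_, h1, h2⟩)
  · intro w w' hAl hw hw' hcyc hne hne'
    by_contra hww
    rcases hAl.2.2 w w' ⟨rfl, hw⟩ ⟨hcyc.symm, hw'⟩ hww with h | h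
    · exact hne h.symm
    · exact hne' h.symm

end Pool.Agent.H91.SC
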